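import Pool.Agent.Y600.DC.Stm

/-!
# Good colourings of balanced hypergraphs (Berge) from bicolourings
-/

namespace Pool.Agent.U139.DC

open Pool.Agent.Y600.DC

theorem t_GOOD : S_BICOL → S_GOOD := by
  classical
  intro hB I V _ _ R hR m hm hcard
  have : Fintype I := Fintype.ofFinite I
  have : Fintype V := Fintype.ofFinite V
  have : Nonempty (Fin m) := ⟨⟨0, by omega⟩⟩
  let E : I → Finset V := fun i => Finset.univ.filter (fun x => R i x)
  have hE : ∀ i x, x ∈ E i ↔ R i x := by intro i x; simp [E]
  have hEcard : ∀ i, m ≤ (E i).card := by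
    intro i
    have h := hcard i
    have h2 : {x | R i x} = ((E i : Finset V) : Set V) := by ext x; simp [E]
    rw [h2, Set.ncard_coe_finset] at h
    exact h
  let f : (V → Fin m) → ℕ := fun c => ∑ i : I, ((E i).image c).card
  obtain ⟨c, hc⟩ := Finite.exists_max f
  refine ⟨c, ?_⟩
  by_contra hcon
  push Not at hcon
  obtain ⟨i, p, hp⟩ := hcon
  -- two vertices of the same colour in edge i
  have hmaps : Set.MapsTo c (E i) ((Finset.univ.erase p : Finset (Fin m)) : Set (Fin m)) := by
    intro x hx
    have hx' : R i x := (hE i x).1 hx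
    simpa using hp x hx'
  have hlt : (Finset.univ.erase p : Finset (Fin m)).card < (E i).card := by
    rw [Finset.card_erase_of_mem (Finset.mem_univ p), Finset.card_univ, Fintype.card_fin]
    have := hEcard i
    omega
  obtain ⟨x, hx, y, hy, hxy, hcxy⟩ := Finset.exists_ne_map_eq_of_card_lt_of_maps_to hlt hmaps
  set q := c x with hq
  have hqp : q ≠ p := hp x ((hE i x).1 hx)
  let W : Finset V := Finset.univ.filter (fun z => c z = p ∨ c z = q)
  have hW : ∀ z, z ∈ W ↔ (c z = p ∨ c z = q) := by intro z; simp [W]
  obtain ⟨d, hd⟩ := hB I V R hR W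
  let c' : V → Fin m := fun z => if z ∈ W then (if d z = true then p else q) else c z
  have hc'W : ∀ z, z ∈ W → c' z = if d z = true then p else q := by
    intro z hz; simp only [c', if_pos hz]
  have hc'n : ∀ z, z ∉ W → c' z = c z := by
    intro z hz; simp only [c', if_neg hz]
  -- two vertices in W
  have hsub : ∀ j, (∃ x ∈ W, ∃ y ∈ W, x ≠ y ∧ R j x ∧ R j y) →
      (E j).image c ⊆ (E j).image c' ∧ p ∈ (E j).image c' := by
    intro j hj
    obtain ⟨zt, hztW, hztR, hzt⟩ := hd j hj true
    obtain ⟨zf, hzfW, hzfR, hzf⟩ := hd j hj false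
    have hpm : p ∈ (E j).image c' := by
      refine Finset.mem_image.2 ⟨zt, (hE j zt).2 hztR, ?_⟩
      rw [hc'W zt hztW, if_pos hzt]
    have hqm : q ∈ (E j).image c' := by
      refine Finset.mem_image.2 ⟨zf, (hE j zf).2 hzfR, ?_⟩
      rw [hc'W zf hzfW, if_neg (by simp [hzf])]
    refine ⟨?_, hpm⟩
    intro b hb
    obtain ⟨z, hz, rfl⟩ := Finset.mem_image.1 hb
    by_cases hzW : z ∈ W
    · rcases (hW z).1 hzW with h | h
      · rw [h]; exact hpm
      · rw [h]; exact hqm
    · exact Finset.mem_image.2 ⟨z, hz, hc'n z hzW⟩
  have hle : ∀ j ∈ (Finset.univ : Finset I), ((E j).image c).card ≤ ((E j).image c').card := by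
    intro j _
    by_cases hj : ∃ x ∈ W, ∃ y ∈ W, x ≠ y ∧ R j x ∧ R j y
    · exact Finset.card_le_card (hsub j hj).1
    · push Not at hj
      by_cases hw : ∃ w ∈ W, R j w
      · obtain ⟨w, hwW, hwR⟩ := hw
        have huniq : ∀ z ∈ E j, z ∈ W → z = w := by
          intro z hz hzW
          by_contra hne
          exact hj z hzW w hwW hne ((hE j z).1 hz) hwR
        by_cases hcw : c' w = c w
        · apply le_of_eq
          congr 1
          apply Finset.image_congr
          intro z hz
          by_cases hzW : z ∈ W
          · rw [huniq z hz hzW]; exact hcw.symm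
          · exact (hc'n z hzW).symm
        · have hsw : ∀ z ∈ E j, c' z = Equiv.swap p q (c z) := by
            intro z hz
            by_cases hzW : z ∈ W
            · have hzw := huniq z hz hzW
              subst hzw
              rw [hc'W z hzW] at hcw ⊢
              rcases (hW z).1 hzW with h | h
              · rw [h, Equiv.swap_apply_left]
                by_cases hdz : d z = true
                · rw [if_pos hdz] at hcw; exact absurd h.symm hcw
                · rw [if_neg hdz]
              · rw [h, Equiv.swap_apply_right]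
                by_cases hdz : d z = true
                · rw [if_pos hdz]
                · rw [if_neg hdz] at hcw; exact absurd h.symm hcw
            · rw [hc'n z hzW]
              have h1 : c z ≠ p := fun h => hzW ((hW z).2 (Or.inl h))
              have h2 : c z ≠ q := fun h => hzW ((hW z).2 (Or.inr h))
              rw [Equiv.swap_apply_of_ne_of_ne h1 h2]
          have him : (E j).image c' = ((E j).image c).image (Equiv.swap p q) := by
            rw [Finset.image_image]
            apply Finset.image_congr
            intro z hz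
            exact hsw z hz
          rw [him, Finset.card_image_of_injective _ (Equiv.swap p q).injective]
      · push Not at hw
        apply le_of_eq
        congr 1
        apply Finset.image_congr
        intro z hz
        have hzW : z ∉ W := fun h => hw z h ((hE j z).1 hz)
        exact (hc'n z hzW).symm
  have hlti : ((E i).image c).card < ((E i).image c').card := by
    have hi : ∃ x ∈ W, ∃ y ∈ W, x ≠ y ∧ R i x ∧ R i y :=
      ⟨x, (hW x).2 (Or.inr rfl), y, (hW y).2 (Or.inr hcxy.symm), hxy, (hE i x).1 hx, (hE i y).1 hy⟩
    obtain ⟨h1, h2⟩ := hsub i hi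
    apply Finset.card_lt_card
    refine ⟨h1, ?_⟩
    intro h3
    obtain ⟨z, hz, hzp⟩ := Finset.mem_image.1 (h3 h2)
    exact hp z ((hE i z).1 hz) hzp
  have hsum : f c < f c' := Finset.sum_lt_sum hle ⟨i, Finset.mem_univ i, hlti⟩
  exact absurd (hc c') (not_le.2 hsum)

end Pool.Agent.U139.DC
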