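import Pool.Agent.Y600.DC.Stm

/-!
# Rounding of fractional covers of balanced hypergraphs from good colourings
-/

namespace Pool.Agent.U139.DC

open Pool.Agent.Y600.DC

theorem t_ROUND : S_GOOD → S_ROUND := by
  classical
  intro hG I V _ _ R hR a m hm hsum
  let R' : I → (Σ x : V, Fin (a x)) → Prop := fun i z => R i z.1
  have hR' : RelBalanced R' := by
    intro k hodd h3 e x hx hpat
    refine hR k hodd h3 e (fun j => (x j).1) ?_ (fun i j => hpat i j)
    intro j j' hjj
    simp only at hjj
    by_contra hne
    have key : ∀ i, (j = i ∨ j = i + 1) ↔ (j' = i ∨ j' = i + 1) := by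
      intro i
      rw [← hpat i j, ← hpat i j']
      show R (e i) (x j).1 ↔ R (e i) (x j').1
      rw [hjj]
    have h1 : j' = j + 1 := by
      rcases (key j).1 (Or.inl rfl) with h | h
      · exact absurd h.symm hne
      · exact h
    have h2 : j = j' + 1 := by
      rcases (key j').2 (Or.inl rfl) with h | h
      · exact absurd h hne
      · exact h
    have h3' : ((2 : ℕ) : ZMod k) = 0 := by
      have h4 : j = j + 1 + 1 := by rw [← h1]; exact h2
      have h5 : j + 2 = j + 0 := by
        rw [add_zero]
        calc j + 2 = j + 1 + 1 := by ring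
          _ = j := h4.symm
      have h6 := add_left_cancel h5
      exact_mod_cast h6
    rw [ZMod.natCast_eq_zero_iff] at h3'
    have := Nat.le_of_dvd (by norm_num) h3'
    omega
  have hcard : ∀ i, m ≤ {z | R' i z}.ncard := by
    intro i
    have h2 : {z | R' i z} =
        (((Finset.univ.filter (fun x => R i x)).sigma (fun x => (Finset.univ : Finset (Fin (a x)))) :
          Finset (Σ x : V, Fin (a x))) : Set (Σ x : V, Fin (a x))) := by
      ext z
      simp [R']
    rw [h2, Set.ncard_coe_finset, Finset.card_sigma]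
    simpa using hsum i
  obtain ⟨c, hc⟩ := hG I (Σ x : V, Fin (a x)) R' hR' m hm hcard
  let C : Fin m → Finset (Σ x : V, Fin (a x)) := fun b => Finset.univ.filter (fun z => c z = b)
  have htot : ∑ b : Fin m, (C b).card = ∑ x, a x := by
    have h1 : ∑ b : Fin m, (C b).card = Fintype.card (Σ x : V, Fin (a x)) := by
      rw [← Finset.card_univ]
      exact (Finset.card_eq_sum_card_fiberwise (fun z _ => Finset.mem_coe.2 (Finset.mem_univ (c z)))).symm
    rw [h1, Fintype.card_sigma]
    simp
  have : Nonempty (Fin m) := ⟨⟨0, by omega⟩⟩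
  have hex : ∃ b ∈ (Finset.univ : Finset (Fin m)), m * (C b).card ≤ ∑ x, a x := by
    apply Finset.exists_le_of_sum_le Finset.univ_nonempty
    rw [← Finset.mul_sum, htot, Finset.sum_const, Finset.card_univ, Fintype.card_fin, smul_eq_mul]
  obtain ⟨b, _, hb⟩ := hex
  refine ⟨(C b).image Sigma.fst, ?_, ?_⟩
  · intro i
    obtain ⟨z, hz, hzb⟩ := hc i b
    exact ⟨z.1, Finset.mem_image.2 ⟨z, by simp [C, hzb], rfl⟩, hz⟩
  · exact le_trans (Nat.mul_le_mul_left m Finset.card_image_le) hb

end Pool.Agent.U139.DC
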